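import Mathlib
import Pool.Graph.R_seed8.H377R2.NK.Fin
import Pool.Graph.R_seed8.H377R2.NK.CountLow
import Pool.Graph.R_seed8.H377R2.NK.Lower

/-!
# Uniform growth of the inverse trees of the 3x+1 map on the integers
-/

set_option autoImplicit false

namespace Pool.Agent.KS6_21.CT

open Filter Topology Pool.Agent.H377R2.NK

/-- the `3x+1` function on the integers -/
def T (n : ℤ) : ℤ := if n % 2 = 0 then n / 2 else (3 * n + 1) / 2

/-- the number of integers `n` with `T^(k)(n) = a` -/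
noncomputable def N (k : ℕ) (a : ℤ) : ℕ := {n : ℤ | T^[k] n = a}.ncard

/-- the number of integers `n`, not divisible by three, with `T^(k)(n) = a` -/
noncomputable def Nstar (k : ℕ) (a : ℤ) : ℕ := {n : ℤ | T^[k] n = a ∧ ¬ (3 : ℤ) ∣ n}.ncard

theorem T_eq {m a : ℤ} (h : T m = a) : m = 2 * a ∨ (3 * m + 1 = 2 * a) := by
  unfold T at h
  split_ifs at h with h1
  · left; omega
  · right; omega

theorem T_two (a : ℤ) : T (2 * a) = a := by
  unfold T
  rw [if_pos (by omega)]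
  omega

theorem T_odd {a b : ℤ} (h : 3 * b + 1 = 2 * a) : T b = a := by
  unfold T
  rw [if_neg (by omega)]
  omega

theorem finite (k : ℕ) (a : ℤ) : {n : ℤ | T^[k] n = a}.Finite := by
  induction k generalizing a with
  | zero => simp
  | succ k ih =>
    refine ((ih (2 * a)).union (ih ((2 * a - 1) / 3))).subset ?_
    intro n hn
    rw [Set.mem_ofPred_eq, Function.iterate_succ_apply'] at hn
    rcases T_eq hn with h | h
    · exact Or.inl h
    · right
      rw [Set.mem_ofPred_eq]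
      omega

theorem finite' (k : ℕ) (a : ℤ) : {n : ℤ | T^[k] n = a ∧ ¬ (3 : ℤ) ∣ n}.Finite :=
  (finite k a).subset fun _ h => h.1

theorem Nstar_le_N (k : ℕ) (a : ℤ) : Nstar k a ≤ N k a :=
  Set.ncard_le_ncard (fun _ h => h.1) (finite k a)

theorem sub {k : ℕ} {a b : ℤ} (hb : T b = a) :
    {n : ℤ | T^[k] n = b ∧ ¬ (3 : ℤ) ∣ n} ⊆ {n : ℤ | T^[k + 1] n = a ∧ ¬ (3 : ℤ) ∣ n} := by
  rintro m ⟨h1, h2⟩
  exact ⟨by rw [Function.iterate_succ_apply', h1, hb], h2⟩

theorem Npr_le (k : ℕ) (a : ℤ) : Npr k a ≤ Nstar k a := by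
  induction k generalizing a with
  | zero =>
    rw [Npr]
    split_ifs with h
    · exact Nat.zero_le _
    · have h2 : {n : ℤ | T^[0] n = a ∧ ¬ (3 : ℤ) ∣ n} = {a} := by
        ext n
        simp only [Function.iterate_zero, id, Set.mem_ofPred_eq, Set.mem_singleton_iff]
        constructor
        · exact fun h => h.1
        · rintro rfl
          exact ⟨rfl, by omega⟩
      rw [Nstar, h2, Set.ncard_singleton]
  | succ k ih =>
    rw [Npr]
    split_ifs with h1 h2
    · exact Nat.zero_le _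
    · set b := (2 * a - 1) / 3 with hb
      have hb3 : 3 * b + 1 = 2 * a := by omega
      have hdisj : Disjoint {n : ℤ | T^[k] n = 2 * a ∧ ¬ (3 : ℤ) ∣ n}
          {n : ℤ | T^[k] n = b ∧ ¬ (3 : ℤ) ∣ n} := by
        rw [Set.disjoint_left]
        rintro m ⟨h4, -⟩ ⟨h5, -⟩
        omega
      calc Npr k (2 * a) + Npr k b ≤ Nstar k (2 * a) + Nstar k b :=
            Nat.add_le_add (ih _) (ih _)
        _ = ({n : ℤ | T^[k] n = 2 * a ∧ ¬ (3 : ℤ) ∣ n} ∪
              {n : ℤ | T^[k] n = b ∧ ¬ (3 : ℤ) ∣ n}).ncard :=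
            (Set.ncard_union_eq hdisj (finite' _ _) (finite' _ _)).symm
        _ ≤ Nstar (k + 1) a :=
            Set.ncard_le_ncard (Set.union_subset (sub (T_two a)) (sub (T_odd hb3))) (finite' _ _)
    · rw [add_zero]
      exact (ih _).trans (Set.ncard_le_ncard (sub (T_two a)) (finite' _ _))

/-- The uniform bounds. -/
theorem uniform {ε : ℝ} (hε : 0 < ε) : ∃ K : ℕ, ∀ k : ℕ, K ≤ k → ∀ a : ℤ, ¬ (3 : ℤ) ∣ a →
    (4 / 3 : ℝ) ^ ((1 - ε) * (k : ℝ)) ≤ (Nstar k a : ℝ) ∧
      (N k a : ℝ) ≤ (4 / 3 : ℝ) ^ ((1 + ε) * (k : ℝ)) := by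
  obtain ⟨K₁, hK₁⟩ := lower hε
  obtain ⟨K₂, hK₂⟩ := ncard_upper (p := 3) (Or.inl rfl) hε
  refine ⟨max K₁ K₂, fun k hk a ha => ⟨?_, ?_⟩⟩
  · refine (hK₁ k ((le_max_left K₁ K₂).trans hk) a ha).trans ?_
    exact_mod_cast Npr_le k a
  · have h1 := hK₂ k ((le_max_right K₁ K₂).trans hk) a
    have h2 : ((((3 : ℕ) : ℝ) + 1) / ((3 : ℕ) : ℝ)) = (4 : ℝ) / 3 := by norm_num
    rw [h2] at h1
    exact h1

/-- From the bounds to the limit. -/
theorem lim_of {f : ℕ → ℝ} (h : ∀ ε : ℝ, 0 < ε → ∃ K : ℕ, ∀ k : ℕ, K ≤ k →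
    (4 / 3 : ℝ) ^ ((1 - ε) * (k : ℝ)) ≤ f k ∧ f k ≤ (4 / 3 : ℝ) ^ ((1 + ε) * (k : ℝ))) :
    Tendsto (fun k : ℕ => Real.log (f k) / (k : ℝ)) atTop (𝓝 (Real.log (4 / 3))) := by
  have hL : 0 < Real.log (4 / 3) := Real.log_pos (by norm_num)
  rw [Metric.tendsto_atTop]
  intro δ hδ
  obtain ⟨K, hK⟩ := h (δ / (2 * Real.log (4 / 3))) (by positivity)
  refine ⟨max K 1, fun k hk => ?_⟩
  have hk1 : (1 : ℝ) ≤ k := by exact_mod_cast (le_max_right K 1).trans hk
  have hk0 : (0 : ℝ) < k := by linarith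
  obtain ⟨h1, h2⟩ := hK k ((le_max_left K 1).trans hk)
  have hN : (0 : ℝ) < f k := lt_of_lt_of_le (Real.rpow_pos_of_pos (by norm_num) _) h1
  have h3 := Real.log_le_log (Real.rpow_pos_of_pos (by norm_num) _) h1
  have h4 := Real.log_le_log hN h2
  rw [Real.log_rpow (by norm_num)] at h3 h4
  have h5 : δ / (2 * Real.log (4 / 3)) * Real.log (4 / 3) = δ / 2 := by
    field_simp
  have h6 : (1 - δ / (2 * Real.log (4 / 3))) * k * Real.log (4 / 3) =
      (Real.log (4 / 3) - δ / 2) * k := by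
    rw [← h5]; ring
  have h7 : (1 + δ / (2 * Real.log (4 / 3))) * k * Real.log (4 / 3) =
      (Real.log (4 / 3) + δ / 2) * k := by
    rw [← h5]; ring
  rw [h6] at h3
  rw [h7] at h4
  rw [Real.dist_eq, abs_lt]
  constructor
  · have : Real.log (4 / 3) - δ / 2 ≤ Real.log (f k) / k := by
      rw [le_div_iff₀ hk0]; exact h3
    linarith
  · have : Real.log (f k) / k ≤ Real.log (4 / 3) + δ / 2 := by
      rw [div_le_iff₀ hk0]; exact h4
    linarith

theorem T_pos {n : ℤ} : 0 < T n ↔ 0 < n := by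
  unfold T
  split_ifs with h
  · omega
  · omega

theorem T_iter_pos (k : ℕ) (n : ℤ) : 0 < T^[k] n ↔ 0 < n := by
  induction k with
  | zero => rfl
  | succ k ih => rw [Function.iterate_succ_apply', T_pos, ih]

/-- An integer divisible by three has exactly one preimage of every order. -/
theorem N_of_dvd (k : ℕ) {a : ℤ} (ha : (3 : ℤ) ∣ a) : {n : ℤ | T^[k] n = a} = {2 ^ k * a} := by
  induction k generalizing a with
  | zero =>
    ext n
    simp
  | succ k ih =>
    have h2 := ih (a := 2 * a) (Dvd.dvd.mul_left ha 2)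
    have h3 : {n : ℤ | T^[k + 1] n = a} = {n : ℤ | T^[k] n = 2 * a} := by
      ext n
      simp only [Set.mem_ofPred_eq, Function.iterate_succ_apply']
      constructor
      · intro h
        rcases T_eq h with h | h
        · exact h
        · exfalso
          omega
      · intro h
        rw [h, T_two]
    rw [h3, h2, pow_succ, mul_assoc]

/-- The counts over the positive natural numbers. -/
theorem nat_count (k a : ℕ) (ha : 0 < a) :
    {n : ℕ | 1 ≤ n ∧ (fun m : ℕ => if m % 2 = 0 then m / 2 else (3 * m + 1) / 2)^[k] n = a}.ncard =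
      N k (a : ℤ) := by
  have hc : ∀ (k : ℕ) (n : ℕ),
      (((fun m : ℕ => if m % 2 = 0 then m / 2 else (3 * m + 1) / 2)^[k] n : ℕ) : ℤ) =
        T^[k] (n : ℤ) := by
    intro k n
    induction k with
    | zero => rfl
    | succ k ih =>
      rw [Function.iterate_succ_apply', Function.iterate_succ_apply', ← ih]
      generalize (fun m : ℕ => if m % 2 = 0 then m / 2 else (3 * m + 1) / 2)^[k] n = x
      unfold T
      split_ifs with h1 h2 h2 <;> omega
  rw [N]
  have h : {n : ℤ | T^[k] n = (a : ℤ)} = (fun n : ℕ => (n : ℤ)) ''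
      {n : ℕ | 1 ≤ n ∧ (fun m : ℕ => if m % 2 = 0 then m / 2 else (3 * m + 1) / 2)^[k] n = a} := by
    ext n
    constructor
    · intro hn
      rw [Set.mem_ofPred_eq] at hn
      have h0 : 0 < n := (T_iter_pos k n).1 (by rw [hn]; exact_mod_cast ha)
      obtain ⟨m, rfl⟩ := Int.eq_ofNat_of_zero_le h0.le
      refine ⟨m, ⟨by omega, ?_⟩, rfl⟩
      have h1 := hc k m
      have h2 : T^[k] (m : ℤ) = (a : ℤ) := hn
      rw [h2] at h1
      exact_mod_cast h1
    · rintro ⟨m, ⟨-, hm⟩, rfl⟩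
      rw [Set.mem_ofPred_eq, ← hc k m, hm]
  rw [h, Set.ncard_image_of_injective _ Nat.cast_injective]

end Pool.Agent.KS6_21.CT
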